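import Pool.Agent.H51.ERA.Stmts
import Pool.Agent.H51.ERA.Base

/-!
MP_e0047e_lc, board `era`, module MK2: the mark at a root which is not open.
-/

set_option autoImplicit false

namespace Pool.Agent.H44.ERA

open Pool.Agent.H51.ERA

theorem tl_ge (s t h : ℕ) : 2 * ((h + 1) * gg s t) + 1 ≤ tl s t h := by
  induction h with
  | zero => simp only [tl]; omega
  | succ h ih =>
    simp only [tl]
    have e : (h + 1 + 1) * gg s t = (h + 1) * gg s t + gg s t := by ring
    rw [e]
    omega

theorem sMK2 (hHT : HTStmt) (hLEFT : LEFTStmt) (hWLEN : WLENStmt) : MK2Stmt := by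
  intro s t b N K i hne hK hi hO
  have hnode : IsNode s t i [] := ⟨hi, by simp⟩
  obtain ⟨hwl, hw2⟩ := hWLEN s t b
  obtain ⟨_, hhi⟩ := hw2 i [] hnode
  have hhiE : Pool.Agent.H51.ERA.hi s t i [] = lo s t i [] + tl s t (DD t) := by
    simp [Pool.Agent.H51.ERA.hi]
  have htl := tl_ge s t (DD t)
  have hnn : nn s t = (DD t + 1) * gg s t := by unfold nn; ring
  have hgn : gg s t ≤ nn s t := by
    rw [hnn]
    exact Nat.le_mul_of_pos_left _ (Nat.succ_pos _)
  rw [← hnn] at htl
  have hlt : lo s t i [] + gg s t < (yl K).length := by rw [hK]; omega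
  obtain ⟨j, hj, h1, h2⟩ := ps_find K hlt
  have h3 : Pool.Agent.H51.ERA.hi s t i [] ≤ ps K (j + 1) + gg s t := by
    by_contra hcon
    exact hO ⟨j + 1, hj, h2, by omega⟩
  obtain ⟨z0, a, C, hz0, ha, hty⟩ := hLEFT s t b i [] hnode
  have hlen0 : z0.length = nn s t := by
    have := congrArg List.length hty
    simp only [List.length_map, List.length_range', List.length_nil, Nat.sub_zero] at this
    rw [this, hnn]
  refine ⟨j, ⟨hj, ?_⟩⟩
  have hdrop : (WW s t b).drop (lo s t i [] + gg s t) =
      (z0.drop (gg s t)).map Ltr.op ++ a :: C := by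
    rw [← List.drop_drop, hz0, List.drop_append_of_le_length (by
      rw [List.length_map, hlen0]; exact hgn), List.map_drop]
  have hzl : (z0.drop (gg s t)).length = nn s t - gg s t := by
    rw [List.length_drop, hlen0]
  have hsl : sl (WW s t b) (lo s t i [] + gg s t) (ps K (j + 1)) =
      (z0.drop (gg s t)).map Ltr.op ++ a ::
        C.take (ps K (j + 1) - (lo s t i [] + gg s t) - (nn s t - gg s t) - 1) := by
    unfold sl
    rw [List.drop_take, hdrop, List.take_append, List.length_map, hzl]
    rw [List.take_of_length_le (by rw [List.length_map, hzl]; omega)]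
    have e : ps K (j + 1) - (lo s t i [] + gg s t) - (nn s t - gg s t) =
        (ps K (j + 1) - (lo s t i [] + gg s t) - (nn s t - gg s t) - 1) + 1 := by omega
    rw [e, List.take_succ_cons]
    simp
  refine ⟨sl (WW s t b) (ps K j) (lo s t i [] + gg s t), z0.drop (gg s t), a,
    C.take (ps K (j + 1) - (lo s t i [] + gg s t) - (nn s t - gg s t) - 1), ?_, ha, ?_, ?_⟩
  · rw [yl_slice K (Nat.le_succ j), hK, ← hsl]
    exact (sl_append _ h1 (le_of_lt h2)).symm
  · rw [List.map_drop, hty]
    simp only [List.length_nil, Nat.zero_mul, Nat.sub_zero]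
    rw [← List.map_drop, ← hnn, List.drop_range']
    simp
  · rw [yl_take, hK, take_sl _ h1]
    have := hHT s t b i [] (gg s t) hnode le_rfl
    simpa using this

end Pool.Agent.H44.ERA
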